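import Pool.Agent.Helper23.DV.Fu
import Pool.Agent.Helper33.DV.Lf2
import Pool.Agent.Helper17.UP.All

/-!
Square ice in domains: the height function with zero boundary values converges in law to a multiple
of the Dirichlet Gaussian free field.
-/

open Filter Topology MeasureTheory ProbabilityTheory

namespace Pool.Agent.Results.MP_973bc8_pr.DirichletGFF

/-- vertices of the square lattice -/
abbrev Vertex := ℤ × ℤ

/-- the plane -/
abbrev Plane := ℝ × ℝ

/-- nearest-neighbour adjacency -/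
def Adjacent (u v : Vertex) : Prop := |u.1 - v.1| + |u.2 - v.2| = 1

/-- the Euclidean distance is `√2` -/
def Diagonal (u v : Vertex) : Prop := |u.1 - v.1| = 1 ∧ |u.2 - v.2| = 1

/-- vertices of `D` having a neighbour outside `D` -/
def Boundary (D : Finset Vertex) : Set Vertex := {v | v ∈ D ∧ ∃ u, Adjacent u v ∧ u ∉ D}

/-- even domain: the boundary is a `×`-circuit (a closed path of diagonal steps) of even vertices -/
def EvenDomain (D : Finset Vertex) : Prop :=
  ∃ (n : ℕ) (c : ℕ → Vertex), 0 < n ∧ c n = c 0 ∧ (∀ i < n, Diagonal (c i) (c (i + 1))) ∧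
    Boundary D = {v | ∃ i < n, c i = v} ∧ ∀ v ∈ Boundary D, Even (v.1 + v.2)

/-- `h` is a height function on `D` with zero boundary values, extended by zero outside `D` -/
structure IsHeight (D : Finset Vertex) (h : Vertex → ℤ) : Prop where
  step : ∀ u ∈ D, ∀ v ∈ D, Adjacent u v → |h u - h v| = 1
  even : ∀ v ∈ D, Even (v.1 + v.2) → Even (h v)
  zero : ∀ v ∈ Boundary D, h v = 0
  off : ∀ v, v ∉ D → h v = 0

/-- mean for the uniform probability measure on the height functions on `D` with zero boundary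
values -/
noncomputable def Mean (D : Finset Vertex) (F : (Vertex → ℤ) → ℝ) : ℝ :=
  (∑ᶠ h ∈ {h | IsHeight D h}, F h) / ({h | IsHeight D h}.ncard : ℝ)

/-- the point of the plane at the vertex `x` of the lattice of mesh `δ` -/
def point (δ : ℝ) (x : Vertex) : Plane := (δ * x.1, δ * x.2)

/-- The even domains `D δ`, mesh `δ`, approximate `Ω` as `δ → 0`: every compact subset of `Ω` is
eventually covered, and every boundary point of `Ω` is a limit of lattice points outside the
domains.  (If `Ω` is connected this is Carathéodory kernel convergence, see `approx_iff_kernel`.) -/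
structure Approx (D : ℝ → Finset Vertex) (Ω : Set Plane) : Prop where
  even : ∀ δ > 0, EvenDomain (D δ)
  inner : ∀ Q : Set Plane, IsCompact Q → Q ⊆ Ω →
    ∀ᶠ δ in 𝓝[>] (0 : ℝ), ∀ x, point δ x ∈ Q → x ∈ D δ
  outer : ∀ z ∈ frontier Ω, ∀ ε > 0,
    ∀ᶠ δ in 𝓝[>] (0 : ℝ), ∃ x, x ∉ D δ ∧ dist (point δ x) z < ε

/-- test functions in `Ω` -/
structure Test (Ω : Set Plane) (f : Plane → ℝ) : Prop where
  smooth : ContDiff ℝ (⊤ : ℕ∞) f
  compact : HasCompactSupport f
  inside : tsupport f ⊆ Ω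

/-- the pairing of the height function on the lattice of mesh `δ` with `f` -/
noncomputable def pairing (δ : ℝ) (D : Finset Vertex) (f : Plane → ℝ) (h : Vertex → ℤ) : ℝ :=
  δ ^ 2 * ∑ x ∈ D, h x * f (point δ x)

/-- the vector of the pairings with the test functions `f i` -/
noncomputable def pairings {m : ℕ} (δ : ℝ) (D : Finset Vertex) (f : Fin m → Plane → ℝ)
    (h : Vertex → ℤ) : EuclideanSpace ℝ (Fin m) := WithLp.toLp 2 fun i => pairing δ D (f i) h

/-- first partial derivative -/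
noncomputable def d₁ (u : Plane → ℝ) (z : Plane) : ℝ := fderiv ℝ u z (1, 0)

/-- second partial derivative -/
noncomputable def d₂ (u : Plane → ℝ) (z : Plane) : ℝ := fderiv ℝ u z (0, 1)

/-- Laplacian -/
noncomputable def laplacian (u : Plane → ℝ) (z : Plane) : ℝ := d₁ (d₁ u) z + d₂ (d₂ u) z

/-- Dirichlet energy -/
noncomputable def dirichlet (u : Plane → ℝ) : ℝ := ∫ z, (d₁ u z ^ 2 + d₂ u z ^ 2)

/-- `∬ f(x) G_Ω(x,y) f(y) dx dy`, as the dual Dirichlet norm: the supremum of `2 ∫ f u - ∫ |∇u|²`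
over the test functions `u` in `Ω` -/
noncomputable def greenNorm (Ω : Set Plane) (f : Plane → ℝ) : ℝ :=
  sSup {a | ∃ u, Test Ω u ∧ a = 2 * (∫ z, f z * u z) - dirichlet u}

/-- `∬ f(x) G_Ω(x,y) g(y) dx dy`, by polarisation -/
noncomputable def greenForm (Ω : Set Plane) (f g : Plane → ℝ) : ℝ :=
  (greenNorm Ω (fun z => f z + g z) - greenNorm Ω (fun z => f z - g z)) / 4

/-- `G` is the Green function of `-Δ` on `Ω` with zero boundary values: for every test function `f`
in `Ω` the function `U(x) = ∫ G(x,y) f(y) dy` is continuous, vanishes outside `Ω`, is smooth in `Ω`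
and solves `-Δ U = f` in `Ω` -/
def IsGreenFunction (Ω : Set Plane) (G : Plane → Plane → ℝ) : Prop :=
  ∀ f, Test Ω f → Continuous (fun x => ∫ y, G x y * f y) ∧ (∀ x ∉ Ω, ∫ y, G x y * f y = 0) ∧
    ContDiffOn ℝ (⊤ : ℕ∞) (fun x => ∫ y, G x y * f y) Ω ∧
    ∀ x ∈ Ω, -laplacian (fun x => ∫ y, G x y * f y) x = f x

/-- the covariance matrix of the pairings of `κ` times the Dirichlet Gaussian free field on `Ω` with
the test functions `f i` -/
noncomputable def covariance {m : ℕ} (κ : ℝ) (Ω : Set Plane) (f : Fin m → Plane → ℝ) :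
    Matrix (Fin m) (Fin m) ℝ :=
  Matrix.of fun i j => κ ^ 2 * greenForm Ω (f i) (f j)

/-! ### conversion to the definitions of the proof -/

private lemma isHeight_iff (D : Finset Vertex) (h : Vertex → ℤ) :
    IsHeight D h ↔ GF.Fin.IsHeight D h :=
  ⟨fun a => ⟨a.step, a.even, a.zero, a.off⟩, fun a => ⟨a.step, a.even, a.zero, a.off⟩⟩

private lemma mean_eq (D : Finset Vertex) (F : (Vertex → ℤ) → ℝ) : Mean D F = GF.Fin.Mean D F := by
  have h1 : {h | IsHeight D h} = {h | GF.Fin.IsHeight D h} := by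
    ext h
    exact isHeight_iff D h
  unfold Mean GF.Fin.Mean
  rw [h1]

private lemma test_iff (Ω : Set Plane) (f : Plane → ℝ) : Test Ω f ↔ GF.Fin.Test Ω f :=
  ⟨fun a => ⟨a.smooth, a.compact, a.inside⟩, fun a => ⟨a.smooth, a.compact, a.inside⟩⟩

private lemma greenNorm_eq (Ω : Set Plane) (f : Plane → ℝ) : greenNorm Ω f = GF.Fin.greenNorm Ω f := by
  unfold greenNorm GF.Fin.greenNorm
  congr 1
  ext a
  constructor
  · rintro ⟨u, hu, h⟩
    exact ⟨u, (test_iff Ω u).1 hu, h⟩
  · rintro ⟨u, hu, h⟩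
    exact ⟨u, (test_iff Ω u).2 hu, h⟩

private lemma greenForm_eq (Ω : Set Plane) (f g : Plane → ℝ) :
    greenForm Ω f g = GF.Fin.greenForm Ω f g := by
  unfold greenForm GF.Fin.greenForm
  rw [greenNorm_eq, greenNorm_eq]

private lemma covariance_eq {m : ℕ} (κ : ℝ) (Ω : Set Plane) (f : Fin m → Plane → ℝ) :
    covariance κ Ω f = GF.Fin.covariance κ Ω f := by
  unfold covariance GF.Fin.covariance
  simp only [greenForm_eq]

private lemma isGreen (Ω : Set Plane) (G : Plane → Plane → ℝ) (h : IsGreenFunction Ω G) :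
    GF.Fin.IsGreenFunction Ω G := fun f hf => h f ((test_iff Ω f).2 hf)

private lemma approx (D : ℝ → Finset Vertex) (Ω : Set Plane) (h : Approx D Ω) :
    GF.Fin.Approx D Ω := ⟨h.even, h.inner, h.outer⟩

/-! ### Carathéodory kernel convergence -/

/-- every connected open set which contains `z₀` and is not contained in `Ω` is eventually not
covered by the domains -/
def Kernel (D : ℝ → Finset Vertex) (Ω : Set Plane) (z₀ : Plane) : Prop :=
  ∀ U : Set Plane, IsOpen U → IsPreconnected U → z₀ ∈ U → ¬ U ⊆ Ω →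
    ∀ᶠ δ in 𝓝[>] (0 : ℝ), ∃ x, x ∉ D δ ∧ point δ x ∈ U

theorem approx_iff_kernel {D : ℝ → Finset Vertex} {Ω : Set Plane} (hΩ : IsOpen Ω)
    (hc : IsConnected Ω) {z₀ : Plane} (hz₀ : z₀ ∈ Ω) :
    Approx D Ω ↔ (∀ δ > 0, EvenDomain (D δ)) ∧
      (∀ Q : Set Plane, IsCompact Q → Q ⊆ Ω → ∀ᶠ δ in 𝓝[>] (0 : ℝ), ∀ x, point δ x ∈ Q → x ∈ D δ) ∧
      Kernel D Ω z₀ := by
  constructor
  · intro h
    refine ⟨h.even, h.inner, fun U hU hUc hzU hUΩ => ?_⟩
    obtain ⟨w, hwU, hwΩ⟩ := Set.not_subset.1 hUΩ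
    obtain ⟨z, hzU', hz⟩ : ∃ z ∈ U, z ∈ frontier Ω := by
      by_contra hcon
      push Not at hcon
      have hout : ∀ y ∈ U, y ∉ Ω → y ∉ closure Ω := by
        intro y hy hyΩ hyc
        refine hcon y hy ?_
        rw [hΩ.frontier_eq]
        exact ⟨hyc, hyΩ⟩
      obtain ⟨y, -, hy1, hy2⟩ := hUc Ω (closure Ω)ᶜ hΩ isClosed_closure.isOpen_compl
        (fun y hy => by
          by_cases hyΩ : y ∈ Ω
          · exact Or.inl hyΩ
          · exact Or.inr (hout y hy hyΩ)) ⟨z₀, hzU, hz₀⟩ ⟨w, hwU, hout w hwU hwΩ⟩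
      exact hy2 (subset_closure hy1)
    obtain ⟨ε, hε, hball⟩ := Metric.isOpen_iff.1 hU z hzU'
    filter_upwards [h.outer z hz ε hε] with δ h1
    obtain ⟨x, hx, hx'⟩ := h1
    exact ⟨x, hx, hball hx'⟩
  · rintro ⟨h1, h2, h3⟩
    refine ⟨h1, h2, fun z hz ε hε => ?_⟩
    -- a path to a point of `Ω` near `z`
    obtain ⟨w, hw, hwz⟩ := Metric.mem_closure_iff.1 hz.1 ε hε
    have hpc : IsPathConnected Ω := hΩ.isConnected_iff_isPathConnected.1 hc
    obtain ⟨γ, hγ⟩ := hpc.joinedIn z₀ hz₀ w hw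
    have hK : IsCompact (Set.range γ) := isCompact_range γ.continuous
    have hKΩ : Set.range γ ⊆ Ω := by
      rintro _ ⟨t, rfl⟩
      exact hγ t
    obtain ⟨ρ, hρ, hρΩ⟩ := hK.exists_cthickening_subset_open hΩ hKΩ
    set W : Set Plane := Metric.thickening ρ (Set.range γ) ∪ Metric.ball z ε with hW
    have hWo : IsOpen W := Metric.isOpen_thickening.union Metric.isOpen_ball
    have hz₀W : z₀ ∈ W := Or.inl (Metric.self_subset_thickening hρ _ ⟨0, γ.source⟩)
    have hzΩ : z ∉ Ω := by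
      rw [hΩ.frontier_eq] at hz
      exact hz.2
    have hsub : Set.range γ ∪ Metric.ball z ε ⊆ connectedComponentIn W z₀ := by
      refine IsPreconnected.subset_connectedComponentIn ?_ (Or.inl ⟨0, γ.source⟩) ?_
      · refine IsPreconnected.union w ⟨1, γ.target⟩ ?_ (isPreconnected_range γ.continuous)
          (convex_ball z ε).isPreconnected
        rw [Metric.mem_ball, dist_comm]
        exact hwz
      · exact Set.union_subset_union_left _ (Metric.self_subset_thickening hρ _)
    have h4 := h3 (connectedComponentIn W z₀) hWo.connectedComponentIn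
      isPreconnected_connectedComponentIn (mem_connectedComponentIn hz₀W)
      (fun h => hzΩ (h (hsub (Or.inr (Metric.mem_ball_self hε)))))
    filter_upwards [h4, h2 _ hK.cthickening hρΩ] with δ h5 h6
    obtain ⟨x, hx, hx'⟩ := h5
    rcases connectedComponentIn_subset _ _ hx' with h7 | h7
    · exact absurd (h6 x (Metric.thickening_subset_cthickening _ _ h7)) hx
    · exact ⟨x, hx, h7⟩

/-! ### the theorem -/

/-- **The scaling limit of the square-ice height function.**  There is one `κ > 0` such that for every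
bounded open `Ω`, all even domains `D δ` approximating `Ω` and all test functions `f i` in `Ω`, the
vector of the pairings with the `f i` converges in law (tested on all continuous functions `φ` of
polynomial growth, so all moments converge as well) to the centred Gaussian vector with covariance
matrix `κ² ∬ f i(x) G_Ω(x,y) f j(y) dx dy`. -/
theorem result :
    ∃ κ : ℝ, 0 < κ ∧ ∀ (Ω : Set Plane) (D : ℝ → Finset Vertex), IsOpen Ω → Bornology.IsBounded Ω →
      Approx D Ω → ∀ (m : ℕ) (f : Fin m → Plane → ℝ), (∀ i, Test Ω (f i)) →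
      (covariance κ Ω f).PosSemidef ∧
      (∀ G, IsGreenFunction Ω G → ∀ i j,
        covariance κ Ω f i j = κ ^ 2 * ∫ x, ∫ y, f i x * G x y * f j y) ∧
      ∀ φ : EuclideanSpace ℝ (Fin m) → ℝ, Continuous φ →
        (∃ (C : ℝ) (k : ℕ), ∀ v, |φ v| ≤ C * (1 + ‖v‖) ^ k) →
        Integrable φ (multivariateGaussian 0 (covariance κ Ω f)) ∧
        Tendsto (fun δ => Mean (D δ) fun h => φ (pairings δ (D δ) f h)) (𝓝[>] 0)
          (𝓝 (∫ v, φ v ∂(multivariateGaussian 0 (covariance κ Ω f)))) := by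
  obtain ⟨κ, hκ, h⟩ := GF.Fin.final_unb (DV.famIn GF.deloc) (DV.UP.upGen GF.deloc)
  refine ⟨κ, hκ, fun Ω D hΩ hb hD m f hf => ?_⟩
  obtain ⟨h1, h2, h3⟩ := h Ω D hΩ hb (approx D Ω hD) m f fun i => (test_iff Ω _).1 (hf i)
  rw [covariance_eq]
  refine ⟨h1, fun G hG i j => h2 G (isGreen Ω G hG) i j, fun φ hφ hg => ?_⟩
  obtain ⟨h4, h5⟩ := h3 φ hφ hg
  refine ⟨h4, ?_⟩
  simp only [mean_eq]
  exact h5

end Pool.Agent.Results.MP_973bc8_pr.DirichletGFF
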