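import Pool.Agent.Helper34.GH.D4
import Pool.Agent.Helper34.GH.G1

/-!
Square ice in half planes, given all heights on and below the boundary line: the height function
minus its conditional mean converges in law to a multiple of the Gaussian free field of the half
plane with zero boundary values.
-/

open Filter Topology MeasureTheory ProbabilityTheory

namespace Pool.Agent.Results.MP_973bc8_pr.GFFHalfPlane

/-- vertices of the square lattice -/
abbrev Vertex := ℤ × ℤ

/-- nearest-neighbour adjacency -/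
def Adjacent (u v : Vertex) : Prop := |u.1 - v.1| + |u.2 - v.2| = 1

/-- vertices of `D` having a neighbour outside `D` -/
def Boundary (D : Finset Vertex) : Set Vertex := {v | v ∈ D ∧ ∃ u, Adjacent u v ∧ u ∉ D}

/-- all boundary vertices are even -/
def EvenBoundary (D : Finset Vertex) : Prop := ∀ v ∈ Boundary D, Even (v.1 + v.2)

/-- `h` is a height function on `D` with zero boundary values, extended by zero outside `D` -/
structure IsHeight (D : Finset Vertex) (h : Vertex → ℤ) : Prop where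
  step : ∀ u ∈ D, ∀ v ∈ D, Adjacent u v → |h u - h v| = 1
  even : ∀ v ∈ D, Even (v.1 + v.2) → Even (h v)
  zero : ∀ v ∈ Boundary D, h v = 0
  off : ∀ v, v ∉ D → h v = 0

/-- mean for the uniform probability measure on the height functions on `D` with zero boundary
values -/
noncomputable def Mean (D : Finset Vertex) (F : (Vertex → ℤ) → ℝ) : ℝ :=
  (∑ᶠ h ∈ {h | IsHeight D h}, F h) / ({h | IsHeight D h}.ncard : ℝ)

/-- `F D` tends to `a` as the finite set `D` with even boundary increases to the whole lattice -/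
def Limit (F : Finset Vertex → ℝ) (a : ℝ) : Prop :=
  ∀ ε > 0, ∃ D₀ : Finset Vertex, ∀ D : Finset Vertex, D₀ ⊆ D → EvenBoundary D → |F D - a| < ε

/-- Euclidean length of a lattice vector -/
noncomputable def length (x : Vertex) : ℝ := Real.sqrt ((x.1 : ℝ) ^ 2 + (x.2 : ℝ) ^ 2)

/-- the eight directions: `(±1, 0)`, `(0, ±1)`, `(±1, ±1)` -/
def Direction (d : Vertex) : Prop := d ≠ 0 ∧ |d.1| ≤ 1 ∧ |d.2| ≤ 1

/-- the inner product of a direction and a vertex -/
def level (d x : Vertex) : ℤ := d.1 * x.1 + d.2 * x.2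

/-- reflection of the lattice in the line `level d x = 0` (the division is exact) -/
def mirror (d x : Vertex) : Vertex :=
  (x.1 - 2 * level d x / (d.1 ^ 2 + d.2 ^ 2) * d.1, x.2 - 2 * level d x / (d.1 ^ 2 + d.2 ^ 2) * d.2)

/-- `D` is symmetric with respect to the line `level d x = 0` -/
def Symmetric (d : Vertex) (D : Finset Vertex) : Prop := ∀ x, x ∈ D ↔ mirror d x ∈ D

/-- conditional mean of `F` given the heights at all vertices `x` with `level d x ≤ 0`, evaluated
at the configuration `g` -/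
noncomputable def CondMean (d : Vertex) (D : Finset Vertex) (F : (Vertex → ℤ) → ℝ)
    (g : Vertex → ℤ) : ℝ :=
  (∑ᶠ h ∈ {h | IsHeight D h ∧ ∀ x, level d x ≤ 0 → h x = g x}, F h) /
    ({h | IsHeight D h ∧ ∀ x, level d x ≤ 0 → h x = g x}.ncard : ℝ)

/-- the pairing of the height function on the lattice of mesh `δ` with the test function `f` -/
noncomputable def pairing (δ : ℝ) (f : ℝ × ℝ → ℝ) (h : Vertex → ℤ) : ℝ :=
  δ ^ 2 * ∑ᶠ x : Vertex, f (δ * x.1, δ * x.2) * (h x : ℝ)

/-- the vector of the pairings with the test functions `f i`, minus their conditional means -/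
noncomputable def centred {m : ℕ} (d : Vertex) (D : Finset Vertex) (δ : ℝ)
    (f : Fin m → ℝ × ℝ → ℝ) (h : Vertex → ℤ) : EuclideanSpace ℝ (Fin m) :=
  WithLp.toLp 2 fun i => pairing δ (f i) h - CondMean d D (pairing δ (f i)) h

/-- the open half plane of the points with positive inner product with `d` -/
def HalfPlane (d : Vertex) : Set (ℝ × ℝ) := {z | 0 < d.1 * z.1 + d.2 * z.2}

/-- reflection of the plane in the boundary line of the half plane -/
noncomputable def Mirror (d : Vertex) (z : ℝ × ℝ) : ℝ × ℝ :=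
  (z.1 - 2 * (d.1 * z.1 + d.2 * z.2) / (d.1 ^ 2 + d.2 ^ 2) * d.1,
    z.2 - 2 * (d.1 * z.1 + d.2 * z.2) / (d.1 ^ 2 + d.2 ^ 2) * d.2)

/-- the Green function of `-Δ` in the half plane with zero boundary values:
`(1/2π) log (|x - y'| / |x - y|)`, `y'` the mirror image of `y` -/
noncomputable def Green (d : Vertex) (x y : ℝ × ℝ) : ℝ :=
  1 / (2 * Real.pi) * (Real.log (Real.sqrt ((x.1 - (Mirror d y).1) ^ 2 + (x.2 - (Mirror d y).2) ^ 2)) -
    Real.log (Real.sqrt ((x.1 - y.1) ^ 2 + (x.2 - y.2) ^ 2)))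

/-- the covariance matrix of the pairings of `κ` times the Gaussian free field of the half plane
with zero boundary values with the test functions `f i` -/
noncomputable def covariance {m : ℕ} (κ : ℝ) (d : Vertex) (f : Fin m → ℝ × ℝ → ℝ) :
    Matrix (Fin m) (Fin m) ℝ :=
  Matrix.of fun i j => κ ^ 2 * ∫ x : ℝ × ℝ, ∫ y : ℝ × ℝ, f i x * Green d x y * f j y

private lemma boundary_eq (D : Finset Vertex) : Boundary D = (RP4.bdry D : Set Vertex) := by
  ext v
  rw [Finset.mem_coe, RP4.mem_bdry]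
  rfl

private lemma bdryPar_iff (D : Finset Vertex) : RP4.BdryPar D 0 ↔ EvenBoundary D := by
  unfold RP4.BdryPar EvenBoundary RP4.par
  rw [boundary_eq]
  simp

private lemma isHeight_iff {D : Finset Vertex} (hD : EvenBoundary D) (h : Vertex → ℤ) :
    IsHeight D h ↔ h ∈ RP4.Om D := by
  rw [RP4.mem_Om]
  constructor
  · intro hh
    refine ⟨⟨hh.off, fun v hv => ?_, hh.step⟩, fun v hv => hh.zero v ?_⟩
    · rw [sub_zero]
      unfold RP4.par
      by_cases hev : Even (v.1 + v.2)
      · exact (hh.even v hv hev).sub hev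
      · have hin : v ∉ Boundary D := fun hb => hev (hD v hb)
        have hu : (v.1 + 1, v.2) ∈ D := by
          by_contra hu
          exact hin ⟨hv, (v.1 + 1, v.2), by simp [Adjacent], hu⟩
        have h1 := hh.step _ hu v hv (by simp [Adjacent])
        have h2 : Even (h (v.1 + 1, v.2)) := by
          refine hh.even _ hu ?_
          have : Odd (v.1 + v.2) := Int.not_even_iff_odd.1 hev
          have h3 : v.1 + 1 + v.2 = v.1 + v.2 + 1 := by ring
          simp only [h3]
          exact this.add_one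
        have h3 : Odd (v.1 + v.2) := Int.not_even_iff_odd.1 hev
        have h4 : Odd (h v) := by
          rcases (abs_eq (by norm_num : (0 : ℤ) ≤ 1)).1 h1 with h5 | h5
          · have h6 : h v = h (v.1 + 1, v.2) - 1 := by linarith
            rw [h6]
            exact h2.sub_odd odd_one
          · have h6 : h v = h (v.1 + 1, v.2) + 1 := by linarith
            rw [h6]
            exact h2.add_one
        exact h4.sub_odd h3
    · rw [boundary_eq]
      exact hv
  · rintro ⟨hh, hz⟩
    refine ⟨hh.step, fun v hv hev => ?_, fun v hv => hz v ?_, hh.off⟩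
    · have h1 := hh.par v hv
      rw [sub_zero] at h1
      unfold RP4.par at h1
      have h2 := h1.add hev
      rwa [sub_add_cancel] at h2
    · rw [boundary_eq] at hv
      exact hv

private lemma mean_eq {D : Finset Vertex} (hD : EvenBoundary D) (F : (Vertex → ℤ) → ℝ) :
    Mean D F = RP4.avg (RP4.Om D) F := by
  have h1 : {h | IsHeight D h} = (RP4.Om D : Set (Vertex → ℤ)) := by
    ext h
    rw [Set.mem_setOf_eq, Finset.mem_coe]
    exact isHeight_iff hD h
  unfold Mean RP4.avg
  rw [h1, finsum_mem_coe_finset, Set.ncard_coe_finset]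

private lemma limit_of_tendsto {F : Finset Vertex → ℝ} {F' : Finset Vertex → ℝ} {a : ℝ}
    (h : Tendsto F' RP4.dom (𝓝 a)) (hF : ∀ D, EvenBoundary D → F D = F' D) : Limit F a := by
  intro ε hε
  have h1 := Metric.tendsto_nhds.1 h ε hε
  rw [RP4.eventually_dom] at h1
  obtain ⟨D₀, hD₀⟩ := h1
  refine ⟨D₀, fun D hD hev => ?_⟩
  rw [hF D hev, ← Real.dist_eq]
  exact hD₀ D hD ((bdryPar_iff D).2 hev)

private lemma finite_support {f : ℝ × ℝ → ℝ} (hf : HasCompactSupport f) {δ : ℝ} (hδ : 0 < δ) :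
    {x : Vertex | f (δ * x.1, δ * x.2) ≠ 0}.Finite := by
  obtain ⟨R, hR⟩ := hf.isCompact.isBounded.exists_norm_le
  obtain ⟨N, hN⟩ := exists_nat_ge (R / δ)
  have h1 : {x : Vertex | f (δ * x.1, δ * x.2) ≠ 0} ⊆
      ((Finset.Icc (-(N : ℤ)) N ×ˢ Finset.Icc (-(N : ℤ)) N : Finset Vertex) : Set Vertex) := by
    intro x hx
    have h2 := hR _ (subset_tsupport f hx)
    rw [div_le_iff₀ hδ] at hN
    have h3 : |δ * (x.1 : ℝ)| ≤ R := (norm_fst_le _).trans h2
    have h4 : |δ * (x.2 : ℝ)| ≤ R := (norm_snd_le _).trans h2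
    rw [abs_mul, abs_of_pos hδ] at h3 h4
    have h5 : |(x.1 : ℝ)| ≤ N := by nlinarith
    have h6 : |(x.2 : ℝ)| ≤ N := by nlinarith
    have h7 : |x.1| ≤ (N : ℤ) := by exact_mod_cast h5
    have h8 : |x.2| ≤ (N : ℤ) := by exact_mod_cast h6
    simp only [Finset.coe_product, Finset.coe_Icc, Set.mem_prod, Set.mem_Icc]
    exact ⟨abs_le.1 h7, abs_le.1 h8⟩
  exact (Finset.finite_toSet _).subset h1

private lemma dirZ_of {d : Vertex} (hd : Direction d) : GF.Lat.DirZ d := by
  obtain ⟨h0, h1, h2⟩ := hd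
  obtain ⟨a, b⟩ := d
  simp only at h1 h2
  rw [abs_le] at h1 h2
  have ha : a = -1 ∨ a = 0 ∨ a = 1 := by omega
  have hb : b = -1 ∨ b = 0 ∨ b = 1 := by omega
  unfold GF.Lat.DirZ
  rcases ha with rfl | rfl | rfl <;> rcases hb with rfl | rfl | rfl <;> simp at h0 ⊢

private lemma mirror_eq (d x : Vertex) : mirror d x = GF.Lat.lref d 0 x := by
  unfold mirror GF.Lat.lref level GF.Lat.ld
  simp only [sub_zero]

private lemma Mirror_eq (d : Vertex) (z : ℝ × ℝ) : Mirror d z = GF.refl (GF.Lat.dr d) 0 z := by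
  unfold Mirror GF.refl GF.ell GF.Lat.dr
  simp only [sub_zero]

private lemma symm_iff {d : Vertex} {D : Finset Vertex} : Symmetric d D ↔ D ∈ GF.Lat.symd d := by
  unfold Symmetric GF.Lat.symd
  simp only [mirror_eq]
  rfl

private lemma cond_eq {d : Vertex} {D : Finset Vertex} (hD : EvenBoundary D)
    (F : (Vertex → ℤ) → ℝ) (g : Vertex → ℤ) :
    CondMean d D F g = GH.cm (fun v => GF.Lat.ld d v ≤ 0) D F g := by
  have h1 : {h | IsHeight D h ∧ ∀ x, level d x ≤ 0 → h x = g x} =
      (GH.agr (fun v => GF.Lat.ld d v ≤ 0) D g : Set (Vertex → ℤ)) := by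
    ext h
    rw [Set.mem_setOf_eq, Finset.mem_coe, GH.mem_agr, isHeight_iff hD]
    rfl
  unfold CondMean GH.cm RP4.avg
  rw [h1, finsum_mem_coe_finset, Set.ncard_coe_finset]

private lemma pairing_eq {δ : ℝ} {f : ℝ × ℝ → ℝ} {s : Finset Vertex}
    (hs : ∀ x : Vertex, f (δ * x.1, δ * x.2) ≠ 0 → x ∈ s) (h : Vertex → ℤ) :
    pairing δ f h = ∑ x ∈ s, RP4.wt δ f x * (h x : ℝ) := by
  unfold pairing
  rw [finsum_eq_sum_of_support_subset (s := s), Finset.mul_sum]
  · refine Finset.sum_congr rfl fun x _ => ?_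
    unfold RP4.wt
    ring
  · intro x hx
    rw [Function.mem_support] at hx
    exact hs x (left_ne_zero_of_mul hx)

private lemma pairing_YY {δ : ℝ} {f : ℝ × ℝ → ℝ} {D : Finset Vertex}
    (hs : ∀ x : Vertex, f (δ * x.1, δ * x.2) ≠ 0 → x ∈ D) (h : Vertex → ℤ) :
    pairing δ f h = GF.Lat.YY f ((δ, D), h) + (∑ x ∈ D, RP4.wt δ f x) * (h 0 : ℝ) := by
  rw [pairing_eq hs, GF.YY_eq_sum hs (Finset.Subset.refl D), Finset.sum_mul,
    ← Finset.sum_add_distrib]
  exact Finset.sum_congr rfl fun x _ => by ring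

private lemma centred_eq {m : ℕ} {d : Vertex} {D : Finset Vertex} (hD : EvenBoundary D) {δ : ℝ}
    {f : Fin m → ℝ × ℝ → ℝ} (hs : ∀ (i : Fin m) (x : Vertex), f i (δ * x.1, δ * x.2) ≠ 0 → x ∈ D)
    {g : Vertex → ℤ} (hg : g ∈ RP4.Om D) :
    centred d D δ f g = GF.Lat.YcV d f ((δ, D), g) := by
  unfold centred GF.Lat.YcV
  congr 1
  funext i
  have e1 : pairing δ (f i) = fun h => GF.Lat.YY (f i) ((δ, D), h) +
      (∑ x ∈ D, RP4.wt δ (f i) x) * (h 0 : ℝ) := funext fun h => pairing_YY (hs i) h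
  have e2 : GH.cm (fun v => GF.Lat.ld d v ≤ 0) D (fun h => (h 0 : ℝ)) g = (g 0 : ℝ) :=
    GH.cm_of_low hg fun h _ hv => by
      have h0 : GF.Lat.ld d (0 : Vertex) ≤ 0 := by
        unfold GF.Lat.ld
        simp
      have h1 := hv 0 h0
      exact_mod_cast h1
  rw [cond_eq hD, e1, GH.cm_add, GH.cm_smul, e2]
  unfold GF.Lat.Yc GF.Lat.Cd
  ring

private lemma cov_eq {m : ℕ} {d : Vertex} (hd : Direction d) {K : ℝ} (hK : 0 ≤ K)
    {f : Fin m → ℝ × ℝ → ℝ} (hf : ∀ i, GF.Cc (f i)) :
    covariance (Real.sqrt K) d f = GF.Lat.hgram K (GF.Lat.dr d) f := by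
  ext i j
  unfold covariance GF.Lat.hgram
  rw [Matrix.of_apply, Matrix.of_apply, Real.sq_sqrt hK,
    GF.Lat.hcov_green (GF.Lat.dr_dir (dirZ_of hd)) (hf i) (hf j)]
  congr 1
  refine integral_congr_ae (Eventually.of_forall fun x => ?_)
  refine integral_congr_ae (Eventually.of_forall fun y => ?_)
  unfold Green GF.Lat.gHd
  simp only [Mirror_eq]

private lemma integrable_pow {m : ℕ} (μ : Measure (EuclideanSpace ℝ (Fin m))) [IsGaussian μ]
    (k : ℕ) : Integrable (fun x : EuclideanSpace ℝ (Fin m) => (1 + ‖x‖) ^ k) μ := by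
  have h1 : MemLp (id : EuclideanSpace ℝ (Fin m) → EuclideanSpace ℝ (Fin m)) (k : ENNReal) μ :=
    IsGaussian.memLp_id μ (k : ENNReal) (ENNReal.natCast_ne_top k)
  have h0 : MemLp (fun _ : EuclideanSpace ℝ (Fin m) => (1 : ℝ)) (k : ENNReal) μ := memLp_const 1
  have h2 : MemLp (fun x : EuclideanSpace ℝ (Fin m) => 1 + ‖x‖) (k : ENNReal) μ := by
    have := h0.add h1.norm
    exact this
  have h3 := h2.integrable_norm_pow'
  refine h3.congr (Eventually.of_forall fun x => ?_)
  have h4 : ‖1 + ‖x‖‖ = 1 + ‖x‖ := Real.norm_of_nonneg (by positivity)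
  simp only [h4]

private lemma integrable_growth {m : ℕ} (μ : Measure (EuclideanSpace ℝ (Fin m))) [IsGaussian μ]
    {φ : EuclideanSpace ℝ (Fin m) → ℝ} (hφ : Continuous φ)
    (hg : ∃ (C : ℝ) (k : ℕ), ∀ v, |φ v| ≤ C * (1 + ‖v‖) ^ k) : Integrable φ μ := by
  obtain ⟨C, k, hC⟩ := hg
  exact ((integrable_pow μ k).const_mul C).mono' hφ.aestronglyMeasurable
    (Eventually.of_forall fun x => hC x)

/--
Square ice with zero boundary values on finite sets `D` with even boundary: there is `κ > 0` with the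
following properties.

* The mean of `(h x - h y) ^ 2` has a limit `a x y` as `D` increases to the whole lattice, and
  `a x y / log |x - y|` tends to `κ² / π` as `|x - y|` tends to infinity.
* For each of the eight half planes `H` bounded by an axis or a diagonal through the origin, and all smooth
  test functions with compact support in `H`, the conditional law of the vector of the pairings minus their
  conditional means, given the heights at all vertices of the closed complementary half plane, converges in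
  mean square to the law of the pairings of `κ` times the Gaussian free field of `H` with zero boundary values:
  first `D`, symmetric with respect to the line, increases to the whole lattice, then the mesh `δ` tends to
  zero.
-/
theorem result : ∃ κ : ℝ, 0 < κ ∧
    (∃ a : Vertex → Vertex → ℝ,
      (∀ x y, Limit (fun D => Mean D fun h => ((h x : ℝ) - h y) ^ 2) (a x y)) ∧
      ∀ ε > 0, ∃ R > 1, ∀ x y : Vertex, R ≤ length (x - y) →
        |a x y / Real.log (length (x - y)) - κ ^ 2 / Real.pi| ≤ ε) ∧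
    ∀ d : Vertex, Direction d → ∀ (m : ℕ) (f : Fin m → ℝ × ℝ → ℝ),
      (∀ i, ContDiff ℝ (⊤ : ℕ∞) (f i) ∧ HasCompactSupport (f i) ∧ tsupport (f i) ⊆ HalfPlane d) →
      (covariance κ d f).PosSemidef ∧
      ∀ φ : EuclideanSpace ℝ (Fin m) → ℝ, Continuous φ →
        (∃ (C : ℝ) (k : ℕ), ∀ v, |φ v| ≤ C * (1 + ‖v‖) ^ k) →
        Integrable φ (multivariateGaussian 0 (covariance κ d f)) ∧
        ∀ ε > 0, ∃ δ₀ > 0, ∀ δ : ℝ, 0 < δ → δ < δ₀ → ∃ D₀ : Finset Vertex, ∀ D : Finset Vertex,
          D₀ ⊆ D → EvenBoundary D → Symmetric d D →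
          Mean D (fun g => (CondMean d D (fun h => φ (centred d D δ f h)) g -
            ∫ v, φ v ∂(multivariateGaussian 0 (covariance κ d f))) ^ 2) < ε := by
  have hd0 := GF.deloc
  obtain ⟨K, a, hK, ha, hlog, -, -⟩ := KP.core_pos
  have hKc : K = GF.Kc hd0 := GF.K_eq hd0 ha hlog
  subst hKc
  have hsq : Real.sqrt (GF.Kc hd0) ^ 2 = GF.Kc hd0 := Real.sq_sqrt hK.le
  have ha' : ∀ x y, Tendsto (fun D => RP4.avg (RP4.Om D) (fun h => ((h x : ℝ) - h y) ^ 2))
      RP4.dom (𝓝 (a x y)) := by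
    intro x y
    refine (ha x y).congr fun D => ?_
    congr 1
    funext h
    push_cast
    ring
  refine ⟨Real.sqrt (GF.Kc hd0), Real.sqrt_pos.2 hK,
    ⟨a, fun x y => limit_of_tendsto (ha' x y) fun D hD => mean_eq hD _, fun ε hε => ?_⟩,
    fun d hd m f hf => ?_⟩
  · obtain ⟨R, hR, h⟩ := hlog ε hε
    refine ⟨R, hR, fun x y hxy => ?_⟩
    rw [hsq]
    exact h x y hxy
  have hcc : ∀ i, GF.Cc (f i) := fun i => ⟨(hf i).1, (hf i).2.1⟩
  have hsup : ∀ i, tsupport (f i) ⊆ {z | 0 < GF.ell (GF.Lat.dr d) z} := fun i => (hf i).2.2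
  have hdz := dirZ_of hd
  rw [cov_eq hd hK.le hcc]
  refine ⟨GF.Lat.hgram_psd hdz hK.le f hcc, fun φ hφ hg => ⟨?_, fun ε hε => ?_⟩⟩
  · exact integrable_growth _ hφ hg
  have h1 := GF.Lat.half_law hd0 hdz f hcc hsup φ hφ hg
  have h2 := (Metric.tendsto_nhds.1 h1) ε hε
  unfold GF.Lat.sitf at h2
  rw [eventually_curry_iff] at h2
  rw [eventually_nhdsWithin_iff, Metric.eventually_nhds_iff] at h2
  obtain ⟨δ₀, hδ₀, h3⟩ := h2
  refine ⟨δ₀, hδ₀, fun δ hδ hδ' => ?_⟩
  have h4 := h3 (y := δ) (by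
    rw [Real.dist_eq, sub_zero, abs_of_pos hδ]
    exact hδ') hδ
  rw [eventually_inf_principal, RP4.eventually_dom] at h4
  obtain ⟨D₁, hD₁⟩ := h4
  set S : Finset Vertex := Finset.univ.biUnion fun j : Fin m =>
    (finite_support (hf j).2.1 hδ).toFinset with hS
  refine ⟨D₁ ∪ S, fun D hD hev hsy => ?_⟩
  have hSf : ∀ (j : Fin m) (x : Vertex), f j (δ * x.1, δ * x.2) ≠ 0 → x ∈ D := by
    intro j x hx
    refine hD (Finset.mem_union_right _ ?_)
    rw [hS, Finset.mem_biUnion]
    exact ⟨j, Finset.mem_univ j, by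
      rw [Set.Finite.mem_toFinset]
      exact hx⟩
  have h5 := hD₁ D ((Finset.union_subset_left hD)) ((bdryPar_iff D).2 hev) (symm_iff.1 hsy)
  rw [Real.dist_eq, sub_zero] at h5
  have h6 := lt_of_le_of_lt (le_abs_self _) h5
  refine lt_of_eq_of_lt ?_ h6
  rw [mean_eq hev]
  unfold GF.Lat.ev RP4.avg
  congr 1
  refine Finset.sum_congr rfl fun g hg => ?_
  have key : CondMean d D (fun h => φ (centred d D δ f h)) g =
      GF.Lat.Cd d (fun k => φ (GF.Lat.YcV d f k)) ((δ, D), g) := by
    rw [cond_eq hev]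
    unfold GF.Lat.Cd
    exact GH.cm_congr (fun k hk => by rw [centred_eq hev hSf hk]) g
  simp only [key]

end Pool.Agent.Results.MP_973bc8_pr.GFFHalfPlane
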