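import Pool.Agent.Helper35.MD.All
import Pool.Agent.Helper58.KP.Fin

/-!
Square ice in bounded domains with zero boundary values: covariances and moments of the height function at the
macroscopic scale, uniformly in the domain and in the mesh.
-/

open Finset

namespace Pool.Agent.Results.MP_973bc8_pr.MacroscopicVariance

/-- vertices of the square lattice -/
abbrev Vertex := ℤ × ℤ

/-- nearest-neighbour adjacency -/
def Adjacent (u v : Vertex) : Prop := |u.1 - v.1| + |u.2 - v.2| = 1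

/-- vertices of `D` having a neighbour outside `D` -/
def Boundary (D : Finset Vertex) : Set Vertex := {v | v ∈ D ∧ ∃ u, Adjacent u v ∧ u ∉ D}

/-- all boundary vertices are even -/
def EvenBoundary (D : Finset Vertex) : Prop := ∀ v ∈ Boundary D, Even (v.1 + v.2)

/-- `h` is a height function on `D` with zero boundary values, extended by zero outside `D` -/
structure IsHeight (D : Finset Vertex) (h : Vertex → ℤ) : Prop where
  step : ∀ u ∈ D, ∀ v ∈ D, Adjacent u v → |h u - h v| = 1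
  even : ∀ v ∈ D, Even (v.1 + v.2) → Even (h v)
  zero : ∀ v ∈ Boundary D, h v = 0
  off : ∀ v, v ∉ D → h v = 0

/-- mean for the uniform probability measure on the height functions on `D` with zero boundary
values -/
noncomputable def Mean (D : Finset Vertex) (F : (Vertex → ℤ) → ℝ) : ℝ :=
  (∑ᶠ h ∈ {h | IsHeight D h}, F h) / ({h | IsHeight D h}.ncard : ℝ)

/-- the pairing `δ² ∑_{x ∈ D} f(δ x) h(x)` of the height function on the lattice of mesh `δ` with the test
function `f` -/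
noncomputable def pairing (D : Finset Vertex) (δ : ℝ) (f : ℝ × ℝ → ℝ) (h : Vertex → ℤ) : ℝ :=
  δ ^ 2 * ∑ x ∈ D, f (δ * x.1, δ * x.2) * (h x : ℝ)

private lemma boundary_eq (D : Finset Vertex) : Boundary D = (RP4.bdry D : Set Vertex) := by
  ext v
  rw [Finset.mem_coe, RP4.mem_bdry]
  rfl

private lemma bdryPar_iff (D : Finset Vertex) : RP4.BdryPar D 0 ↔ EvenBoundary D := by
  unfold RP4.BdryPar EvenBoundary RP4.par
  rw [boundary_eq]
  simp

private lemma isHeight_iff {D : Finset Vertex} (hD : EvenBoundary D) (h : Vertex → ℤ) :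
    IsHeight D h ↔ h ∈ RP4.Om D := by
  rw [RP4.mem_Om]
  constructor
  · intro hh
    refine ⟨⟨hh.off, fun v hv => ?_, hh.step⟩, fun v hv => hh.zero v ?_⟩
    · rw [sub_zero]
      unfold RP4.par
      by_cases hev : Even (v.1 + v.2)
      · exact (hh.even v hv hev).sub hev
      · have hin : v ∉ Boundary D := fun hb => hev (hD v hb)
        have hu : (v.1 + 1, v.2) ∈ D := by
          by_contra hu
          exact hin ⟨hv, (v.1 + 1, v.2), by simp [Adjacent], hu⟩
        have h1 := hh.step _ hu v hv (by simp [Adjacent])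
        have h2 : Even (h (v.1 + 1, v.2)) := by
          refine hh.even _ hu ?_
          have : Odd (v.1 + v.2) := Int.not_even_iff_odd.1 hev
          have h3 : v.1 + 1 + v.2 = v.1 + v.2 + 1 := by ring
          simp only [h3]
          exact this.add_one
        have h3 : Odd (v.1 + v.2) := Int.not_even_iff_odd.1 hev
        have h4 : Odd (h v) := by
          rcases (abs_eq (by norm_num : (0 : ℤ) ≤ 1)).1 h1 with h5 | h5
          · have h6 : h v = h (v.1 + 1, v.2) - 1 := by linarith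
            rw [h6]
            exact h2.sub_odd odd_one
          · have h6 : h v = h (v.1 + 1, v.2) + 1 := by linarith
            rw [h6]
            exact h2.add_one
        exact h4.sub_odd h3
    · rw [boundary_eq]
      exact hv
  · rintro ⟨hh, hz⟩
    refine ⟨hh.step, fun v hv hev => ?_, fun v hv => hz v ?_, hh.off⟩
    · have h1 := hh.par v hv
      rw [sub_zero] at h1
      unfold RP4.par at h1
      have h2 := h1.add hev
      rwa [sub_add_cancel] at h2
    · rw [boundary_eq] at hv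
      exact hv

private lemma mean_eq {D : Finset Vertex} (hD : EvenBoundary D) (F : (Vertex → ℤ) → ℝ) :
    Mean D F = RP4.avg (RP4.Om D) F := by
  have h1 : {h | IsHeight D h} = (RP4.Om D : Set (Vertex → ℤ)) := by
    ext h
    rw [Set.mem_setOf_eq, Finset.mem_coe]
    exact isHeight_iff hD h
  unfold Mean RP4.avg
  rw [h1, finsum_mem_coe_finset, Set.ncard_coe_finset]

/-- the bilinear estimate -/
private lemma bilinear : ∃ C : ℝ, 0 ≤ C ∧ ∀ (R : ℕ) (D : Finset Vertex), 1 ≤ R → RP4.BdryPar D 0 →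
    (∀ u ∈ D, ∀ v ∈ D, |u.1 - v.1| ≤ R ∧ |u.2 - v.2| ≤ R) →
    ∀ (g k : Vertex → ℝ) (m : ℤ → ℝ), (∀ x ∈ D, |g x| ≤ m x.2) →
      |RP4.avg (RP4.Om D) (fun h => (∑ x ∈ D, g x * (h x : ℝ)) * ∑ x ∈ D, k x * (h x : ℝ))| ≤
        C * R * (∑ y ∈ D.image Prod.snd, m y) * ∑ x ∈ D, |k x| := by
  classical
  obtain ⟨C, hC, hrow⟩ := MD.row_all
  refine ⟨C, hC, fun R D hR hD hRD g k m hm => ?_⟩
  have h1 : RP4.avg (RP4.Om D) (fun h => (∑ x ∈ D, g x * (h x : ℝ)) * ∑ x ∈ D, k x * (h x : ℝ)) =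
      ∑ w ∈ D, ∑ x ∈ D, k w * (g x * MD.cv D x w) := by
    have h2 : (fun h : Vertex → ℤ => (∑ x ∈ D, g x * (h x : ℝ)) * ∑ x ∈ D, k x * (h x : ℝ)) =
        fun h => ∑ w ∈ D, ∑ x ∈ D, k w * (g x * ((h x : ℝ) * h w)) := by
      funext h
      rw [Finset.sum_mul_sum, Finset.sum_comm]
      exact Finset.sum_congr rfl fun w _ => Finset.sum_congr rfl fun x _ => by ring
    rw [h2, RP4.avg_sum]
    refine Finset.sum_congr rfl fun w _ => ?_
    rw [RP4.avg_sum]
    refine Finset.sum_congr rfl fun x _ => ?_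
    rw [RP4.avg_const_mul, RP4.avg_const_mul]
    rfl
  rw [h1]
  have h3 : ∀ w ∈ D, |∑ x ∈ D, k w * (g x * MD.cv D x w)| ≤ C * R * (∑ y ∈ D.image Prod.snd, m y) * |k w| := by
    intro w hw
    rw [← Finset.mul_sum, abs_mul, mul_comm]
    refine mul_le_mul_of_nonneg_right ?_ (abs_nonneg _)
    calc |∑ x ∈ D, g x * MD.cv D x w| ≤ ∑ x ∈ D, |g x * MD.cv D x w| := Finset.abs_sum_le_sum_abs _ _
      _ ≤ ∑ x ∈ D, m x.2 * MD.cv D x w := by
          refine Finset.sum_le_sum fun x hx => ?_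
          rw [abs_mul, abs_of_nonneg (MD.cv_nonneg D x w)]
          exact mul_le_mul_of_nonneg_right (hm x hx) (MD.cv_nonneg D x w)
      _ = ∑ y ∈ D.image Prod.snd, ∑ x ∈ D.filter (fun x => x.2 = y), m x.2 * MD.cv D x w := by
          rw [Finset.sum_fiberwise_of_maps_to (g := Prod.snd) (fun x hx => Finset.mem_image_of_mem _ hx)]
      _ ≤ ∑ y ∈ D.image Prod.snd, m y * (C * R) := by
          refine Finset.sum_le_sum fun y hy => ?_
          have e : ∑ x ∈ D.filter (fun x => x.2 = y), m x.2 * MD.cv D x w =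
              m y * ∑ x ∈ D.filter (fun x => x.2 = y), MD.cv D x w := by
            rw [Finset.mul_sum]
            refine Finset.sum_congr rfl fun x hx => ?_
            rw [(Finset.mem_filter.1 hx).2]
          rw [e]
          obtain ⟨x, hx, hxy⟩ := Finset.mem_image.1 hy
          have hm0 : 0 ≤ m y := by
            rw [← hxy]
            exact (abs_nonneg _).trans (hm x hx)
          exact mul_le_mul_of_nonneg_left (hrow R hR D hD hRD w hw y) hm0
      _ = C * R * (∑ y ∈ D.image Prod.snd, m y) := by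
          rw [← Finset.sum_mul]
          ring
  calc |∑ w ∈ D, ∑ x ∈ D, k w * (g x * MD.cv D x w)| ≤ ∑ w ∈ D, |∑ x ∈ D, k w * (g x * MD.cv D x w)| :=
        Finset.abs_sum_le_sum_abs _ _
    _ ≤ ∑ w ∈ D, C * R * (∑ y ∈ D.image Prod.snd, m y) * |k w| := Finset.sum_le_sum h3
    _ = _ := by rw [← Finset.mul_sum]

/-- Zero boundary values, any finite domain `D` with even boundary.  (1) If `D` has diameter at most `R` (in both
coordinates) and `|g| ≤ m(y)` in the row `y`, then `|E (∑ g h)(∑ k h)| ≤ C R (∑_y m(y)) (∑ |k|)`.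
(2) If `δ D` has diameter at most `L` and `|f| ≤ A`, then `E |⟨h, f⟩|^n ≤ C_n (L² A)^n`. -/
theorem result :
    (∃ C : ℝ, ∀ (R : ℕ) (D : Finset Vertex), 1 ≤ R → EvenBoundary D →
      (∀ u ∈ D, ∀ v ∈ D, |u.1 - v.1| ≤ R ∧ |u.2 - v.2| ≤ R) →
      ∀ (g k : Vertex → ℝ) (m : ℤ → ℝ), (∀ x ∈ D, |g x| ≤ m x.2) →
        |Mean D (fun h => (∑ x ∈ D, g x * (h x : ℝ)) * ∑ x ∈ D, k x * (h x : ℝ))| ≤
          C * R * (∑ y ∈ D.image Prod.snd, m y) * ∑ x ∈ D, |k x|) ∧
    (∀ n : ℕ, ∃ C : ℝ, ∀ (δ L A : ℝ) (D : Finset Vertex) (f : ℝ × ℝ → ℝ), 0 < δ → δ ≤ L →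
      EvenBoundary D → (∀ u ∈ D, ∀ v ∈ D, δ * |(u.1 : ℝ) - v.1| ≤ L ∧ δ * |(u.2 : ℝ) - v.2| ≤ L) →
      (∀ z, |f z| ≤ A) → Mean D (fun h => |pairing D δ f h| ^ n) ≤ C * (L ^ 2 * A) ^ n) := by
  classical
  constructor
  · obtain ⟨C, _, h⟩ := bilinear
    refine ⟨C, fun R D hR hD hRD g k m hm => ?_⟩
    rw [mean_eq hD]
    exact h R D hR ((bdryPar_iff D).2 hD) hRD g k m hm
  · intro n
    obtain ⟨C1, hC1, hmdv⟩ := MD.mdv
    obtain ⟨C2, hC2, hmom⟩ := GF.moments n
    refine ⟨C2 * (6 * Real.sqrt C1 + 9) ^ n, fun δ L A D f hδ hδL hD hDL hf => ?_⟩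
    have hD' := (bdryPar_iff D).2 hD
    rw [mean_eq hD]
    have hL : 0 < L := hδ.trans_le hδL
    have hA : 0 ≤ A := (abs_nonneg _).trans (hf (0, 0))
    -- the radius
    set R : ℕ := ⌈L / δ⌉₊ with hR
    have hLδ : 1 ≤ L / δ := by
      rw [le_div_iff₀ hδ]
      linarith
    have hR1 : 1 ≤ R := by
      rw [hR, Nat.one_le_ceil_iff]
      linarith
    have hRle : (R : ℝ) ≤ L / δ + 1 := (Nat.ceil_lt_add_one (by linarith)).le
    have hRδ : δ * R ≤ 2 * L := by
      have h1 : δ * (R : ℝ) ≤ δ * (L / δ + 1) := mul_le_mul_of_nonneg_left hRle hδ.le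
      have h2 : δ * (L / δ + 1) = L + δ := by
        field_simp
      linarith
    have hRD : ∀ u ∈ D, ∀ v ∈ D, |u.1 - v.1| ≤ R ∧ |u.2 - v.2| ≤ R := by
      have key : ∀ a b : ℤ, δ * |(a : ℝ) - b| ≤ L → |a - b| ≤ (R : ℤ) := by
        intro a b hab
        have h1 : |(a : ℝ) - b| ≤ L / δ := by
          rw [le_div_iff₀ hδ]
          linarith
        have h2 : |(a : ℝ) - b| ≤ R := h1.trans (Nat.le_ceil _)
        exact_mod_cast h2
      intro u hu v hv
      obtain ⟨h1, h2⟩ := hDL u hu v hv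
      exact ⟨key _ _ h1, key _ _ h2⟩
    -- the number of sites
    have hcard : δ ^ 2 * (D.card : ℝ) ≤ 9 * L ^ 2 := by
      rcases D.eq_empty_or_nonempty with h0 | ⟨u, hu⟩
      · rw [h0, card_empty, Nat.cast_zero, mul_zero]
        positivity
      · obtain ⟨p, hp, hpmin⟩ := Finset.exists_min_image D Prod.fst ⟨u, hu⟩
        obtain ⟨q, hq, hqmin⟩ := Finset.exists_min_image D Prod.snd ⟨u, hu⟩
        have hsub : D ⊆ Icc p.1 (p.1 + R) ×ˢ Icc q.2 (q.2 + R) := by
          intro v hv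
          have e1 := hpmin v hv
          have e2 := hqmin v hv
          have e3 := (abs_le.1 (hRD v hv p hp).1).2
          have e4 := (abs_le.1 (hRD v hv q hq).2).2
          rw [mem_product, mem_Icc, mem_Icc]
          exact ⟨⟨e1, by linarith⟩, e2, by linarith⟩
        have h1 := Finset.card_le_card hsub
        rw [card_product, Int.card_Icc, Int.card_Icc] at h1
        have e5 : (p.1 + (R : ℤ) + 1 - p.1).toNat = R + 1 := by omega
        have e6 : (q.2 + (R : ℤ) + 1 - q.2).toNat = R + 1 := by omega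
        rw [e5, e6] at h1
        have h2 : (D.card : ℝ) ≤ ((R : ℝ) + 1) * (R + 1) := by exact_mod_cast h1
        have h3 : δ * ((R : ℝ) + 1) ≤ 3 * L := by
          rw [mul_add, mul_one]
          linarith
        have h4 : 0 ≤ δ * ((R : ℝ) + 1) := by positivity
        calc δ ^ 2 * (D.card : ℝ) ≤ δ ^ 2 * (((R : ℝ) + 1) * (R + 1)) := mul_le_mul_of_nonneg_left h2 (by positivity)
          _ = (δ * ((R : ℝ) + 1)) * (δ * ((R : ℝ) + 1)) := by ring
          _ ≤ (3 * L) * (3 * L) := mul_le_mul h3 h3 h4 (by positivity)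
          _ = 9 * L ^ 2 := by ring
    -- the weights
    set w : Vertex → ℝ := fun x => δ ^ 2 * f (δ * x.1, δ * x.2) with hw
    have hwA : ∀ x ∈ D, |w x| ≤ δ ^ 2 * A := by
      intro x _
      rw [hw]
      show |δ ^ 2 * f (δ * x.1, δ * x.2)| ≤ _
      rw [abs_mul, abs_of_nonneg (by positivity : (0 : ℝ) ≤ δ ^ 2)]
      exact mul_le_mul_of_nonneg_left (hf _) (by positivity)
    have hsum : ∑ x ∈ D, |w x| ≤ 9 * (L ^ 2 * A) := by
      calc ∑ x ∈ D, |w x| ≤ ∑ _x ∈ D, δ ^ 2 * A := Finset.sum_le_sum hwA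
        _ = (δ ^ 2 * (D.card : ℝ)) * A := by
            rw [Finset.sum_const, nsmul_eq_mul]
            ring
        _ ≤ (9 * L ^ 2) * A := mul_le_mul_of_nonneg_right hcard hA
        _ = _ := by ring
    have hpair : ∀ h : Vertex → ℤ, pairing D δ f h = GF.lin D w h := by
      intro h
      unfold pairing GF.lin
      rw [Finset.mul_sum]
      refine Finset.sum_congr rfl fun x _ => ?_
      rw [hw]
      ring
    have hvar : RP4.avg (RP4.Om D) (fun h => GF.lin D w h ^ 2) ≤ C1 * (6 * (L ^ 2 * A)) ^ 2 := by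
      have h1 := hmdv R hR1 D hD' hRD w (δ ^ 2 * A) hwA
      have h2 : RP4.avg (RP4.Om D) (fun h => GF.lin D w h ^ 2) =
          RP4.avg (RP4.Om D) (fun h => (∑ x ∈ D, w x * (h x : ℝ)) ^ 2) := rfl
      rw [h2]
      refine h1.trans ?_
      have h3 : 0 ≤ δ * (R : ℝ) := by positivity
      have h4 : (δ * (R : ℝ)) ^ 2 ≤ (2 * L) ^ 2 := pow_le_pow_left₀ h3 hRδ 2
      calc C1 * (R : ℝ) ^ 2 * (δ ^ 2 * A * ∑ x ∈ D, |w x|) = C1 * ((δ * (R : ℝ)) ^ 2 * (A * ∑ x ∈ D, |w x|)) := by ring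
        _ ≤ C1 * ((2 * L) ^ 2 * (A * (9 * (L ^ 2 * A)))) := by
            refine mul_le_mul_of_nonneg_left ?_ hC1
            refine mul_le_mul h4 (mul_le_mul_of_nonneg_left hsum hA) ?_ (by positivity)
            exact mul_nonneg hA (Finset.sum_nonneg fun x _ => abs_nonneg _)
        _ = C1 * (6 * (L ^ 2 * A)) ^ 2 := by ring
    have hLA : 0 ≤ L ^ 2 * A := by positivity
    have hsq : Real.sqrt (RP4.avg (RP4.Om D) (fun h => GF.lin D w h ^ 2)) ≤ Real.sqrt C1 * (6 * (L ^ 2 * A)) := by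
      refine (Real.sqrt_le_sqrt hvar).trans (le_of_eq ?_)
      rw [Real.sqrt_mul hC1, Real.sqrt_sq (by positivity)]
    have h5 := hmom D D w (RP4.Om_nonempty hD')
    have h6 : RP4.avg (RP4.Om D) (fun h => |pairing D δ f h| ^ n) = RP4.avg (RP4.Om D) (fun h => |GF.lin D w h| ^ n) := by
      congr 1
      funext h
      rw [hpair h]
    rw [h6]
    refine h5.trans ?_
    rw [mul_assoc, ← mul_pow]
    refine mul_le_mul_of_nonneg_left (pow_le_pow_left₀ ?_ ?_ n) hC2
    · exact add_nonneg (Real.sqrt_nonneg _) (Finset.sum_nonneg fun x _ => abs_nonneg _)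
    · calc _ ≤ Real.sqrt C1 * (6 * (L ^ 2 * A)) + 9 * (L ^ 2 * A) := add_le_add hsq hsum
        _ = (6 * Real.sqrt C1 + 9) * (L ^ 2 * A) := by ring

end Pool.Agent.Results.MP_973bc8_pr.MacroscopicVariance
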