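import Pool.Agent.Helper34.GF.F6

/-!
Square ice: the height function converges in law to a multiple of the Gaussian free field of the
plane.
-/

open Filter Topology MeasureTheory ProbabilityTheory

namespace Pool.Agent.Results.MP_973bc8_pr.WholePlaneGFF

/-- vertices of the square lattice -/
abbrev Vertex := ℤ × ℤ

/-- nearest-neighbour adjacency -/
def Adjacent (u v : Vertex) : Prop := |u.1 - v.1| + |u.2 - v.2| = 1

/-- vertices of `D` having a neighbour outside `D` -/
def Boundary (D : Finset Vertex) : Set Vertex := {v | v ∈ D ∧ ∃ u, Adjacent u v ∧ u ∉ D}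

/-- all boundary vertices are even -/
def EvenBoundary (D : Finset Vertex) : Prop := ∀ v ∈ Boundary D, Even (v.1 + v.2)

/-- `h` is a height function on `D` with zero boundary values, extended by zero outside `D` -/
structure IsHeight (D : Finset Vertex) (h : Vertex → ℤ) : Prop where
  step : ∀ u ∈ D, ∀ v ∈ D, Adjacent u v → |h u - h v| = 1
  even : ∀ v ∈ D, Even (v.1 + v.2) → Even (h v)
  zero : ∀ v ∈ Boundary D, h v = 0
  off : ∀ v, v ∉ D → h v = 0

/-- mean for the uniform probability measure on the height functions on `D` with zero boundary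
values -/
noncomputable def Mean (D : Finset Vertex) (F : (Vertex → ℤ) → ℝ) : ℝ :=
  (∑ᶠ h ∈ {h | IsHeight D h}, F h) / ({h | IsHeight D h}.ncard : ℝ)

/-- `F D` tends to `a` as the finite set `D` with even boundary increases to the whole lattice -/
def Limit (F : Finset Vertex → ℝ) (a : ℝ) : Prop :=
  ∀ ε > 0, ∃ D₀ : Finset Vertex, ∀ D : Finset Vertex, D₀ ⊆ D → EvenBoundary D → |F D - a| < ε

/-- Euclidean length of a lattice vector -/
noncomputable def length (x : Vertex) : ℝ := Real.sqrt ((x.1 : ℝ) ^ 2 + (x.2 : ℝ) ^ 2)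

/-- the pairing of the height function on the lattice of mesh `δ`, taken to vanish at the origin,
with the test function `f` -/
noncomputable def pairing (δ : ℝ) (f : ℝ × ℝ → ℝ) (h : Vertex → ℤ) : ℝ :=
  δ ^ 2 * ∑ᶠ x : Vertex, f (δ * x.1, δ * x.2) * ((h x : ℝ) - h 0)

/-- the vector of the pairings with the test functions `f i` -/
noncomputable def pairings {m : ℕ} (δ : ℝ) (f : Fin m → ℝ × ℝ → ℝ) (h : Vertex → ℤ) :
    EuclideanSpace ℝ (Fin m) := WithLp.toLp 2 fun i => pairing δ (f i) h

/-- `∬ f(x) G(x - y) g(y) dx dy` with the Green function `G(z) = -(1/2π) log |z|` of the plane -/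
noncomputable def greenForm (f g : ℝ × ℝ → ℝ) : ℝ :=
  ∫ x : ℝ × ℝ, ∫ y : ℝ × ℝ,
    f x * (-(1 / (2 * Real.pi)) * Real.log (Real.sqrt ((x.1 - y.1) ^ 2 + (x.2 - y.2) ^ 2))) * g y

/-- the covariance matrix of the pairings of `κ` times the Gaussian free field of the plane with
the test functions `f i` -/
noncomputable def covariance {m : ℕ} (κ : ℝ) (f : Fin m → ℝ × ℝ → ℝ) : Matrix (Fin m) (Fin m) ℝ :=
  Matrix.of fun i j => κ ^ 2 * greenForm (f i) (f j)

private lemma boundary_eq (D : Finset Vertex) : Boundary D = (RP4.bdry D : Set Vertex) := by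
  ext v
  rw [Finset.mem_coe, RP4.mem_bdry]
  rfl

private lemma bdryPar_iff (D : Finset Vertex) : RP4.BdryPar D 0 ↔ EvenBoundary D := by
  unfold RP4.BdryPar EvenBoundary RP4.par
  rw [boundary_eq]
  simp

private lemma isHeight_iff {D : Finset Vertex} (hD : EvenBoundary D) (h : Vertex → ℤ) :
    IsHeight D h ↔ h ∈ RP4.Om D := by
  rw [RP4.mem_Om]
  constructor
  · intro hh
    refine ⟨⟨hh.off, fun v hv => ?_, hh.step⟩, fun v hv => hh.zero v ?_⟩
    · rw [sub_zero]
      unfold RP4.par
      by_cases hev : Even (v.1 + v.2)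
      · exact (hh.even v hv hev).sub hev
      · have hin : v ∉ Boundary D := fun hb => hev (hD v hb)
        have hu : (v.1 + 1, v.2) ∈ D := by
          by_contra hu
          exact hin ⟨hv, (v.1 + 1, v.2), by simp [Adjacent], hu⟩
        have h1 := hh.step _ hu v hv (by simp [Adjacent])
        have h2 : Even (h (v.1 + 1, v.2)) := by
          refine hh.even _ hu ?_
          have : Odd (v.1 + v.2) := Int.not_even_iff_odd.1 hev
          have h3 : v.1 + 1 + v.2 = v.1 + v.2 + 1 := by ring
          simp only [h3]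
          exact this.add_one
        have h3 : Odd (v.1 + v.2) := Int.not_even_iff_odd.1 hev
        have h4 : Odd (h v) := by
          rcases (abs_eq (by norm_num : (0 : ℤ) ≤ 1)).1 h1 with h5 | h5
          · have h6 : h v = h (v.1 + 1, v.2) - 1 := by linarith
            rw [h6]
            exact h2.sub_odd odd_one
          · have h6 : h v = h (v.1 + 1, v.2) + 1 := by linarith
            rw [h6]
            exact h2.add_one
        exact h4.sub_odd h3
    · rw [boundary_eq]
      exact hv
  · rintro ⟨hh, hz⟩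
    refine ⟨hh.step, fun v hv hev => ?_, fun v hv => hz v ?_, hh.off⟩
    · have h1 := hh.par v hv
      rw [sub_zero] at h1
      unfold RP4.par at h1
      have h2 := h1.add hev
      rwa [sub_add_cancel] at h2
    · rw [boundary_eq] at hv
      exact hv

private lemma mean_eq {D : Finset Vertex} (hD : EvenBoundary D) (F : (Vertex → ℤ) → ℝ) :
    Mean D F = RP4.avg (RP4.Om D) F := by
  have h1 : {h | IsHeight D h} = (RP4.Om D : Set (Vertex → ℤ)) := by
    ext h
    rw [Set.mem_setOf_eq, Finset.mem_coe]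
    exact isHeight_iff hD h
  unfold Mean RP4.avg
  rw [h1, finsum_mem_coe_finset, Set.ncard_coe_finset]

private lemma limit_of_tendsto {F : Finset Vertex → ℝ} {F' : Finset Vertex → ℝ} {a : ℝ}
    (h : Tendsto F' RP4.dom (𝓝 a)) (hF : ∀ D, EvenBoundary D → F D = F' D) : Limit F a := by
  intro ε hε
  have h1 := Metric.tendsto_nhds.1 h ε hε
  rw [RP4.eventually_dom] at h1
  obtain ⟨D₀, hD₀⟩ := h1
  refine ⟨D₀, fun D hD hev => ?_⟩
  rw [hF D hev, ← Real.dist_eq]
  exact hD₀ D hD ((bdryPar_iff D).2 hev)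

private lemma finite_support {f : ℝ × ℝ → ℝ} (hf : HasCompactSupport f) {δ : ℝ} (hδ : 0 < δ) :
    {x : Vertex | f (δ * x.1, δ * x.2) ≠ 0}.Finite := by
  obtain ⟨R, hR⟩ := hf.isCompact.isBounded.exists_norm_le
  obtain ⟨N, hN⟩ := exists_nat_ge (R / δ)
  have h1 : {x : Vertex | f (δ * x.1, δ * x.2) ≠ 0} ⊆
      ((Finset.Icc (-(N : ℤ)) N ×ˢ Finset.Icc (-(N : ℤ)) N : Finset Vertex) : Set Vertex) := by
    intro x hx
    have h2 := hR _ (subset_tsupport f hx)
    rw [div_le_iff₀ hδ] at hN
    have h3 : |δ * (x.1 : ℝ)| ≤ R := (norm_fst_le _).trans h2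
    have h4 : |δ * (x.2 : ℝ)| ≤ R := (norm_snd_le _).trans h2
    rw [abs_mul, abs_of_pos hδ] at h3 h4
    have h5 : |(x.1 : ℝ)| ≤ N := by nlinarith
    have h6 : |(x.2 : ℝ)| ≤ N := by nlinarith
    have h7 : |x.1| ≤ (N : ℤ) := by exact_mod_cast h5
    have h8 : |x.2| ≤ (N : ℤ) := by exact_mod_cast h6
    simp only [Finset.coe_product, Finset.coe_Icc, Set.mem_prod, Set.mem_Icc]
    exact ⟨abs_le.1 h7, abs_le.1 h8⟩
  exact (Finset.finite_toSet _).subset h1

private lemma pairing_eq {δ : ℝ} {f : ℝ × ℝ → ℝ} {s : Finset Vertex}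
    (hs : ∀ x : Vertex, f (δ * x.1, δ * x.2) ≠ 0 → x ∈ s) (h : Vertex → ℤ) :
    pairing δ f h = ∑ x ∈ s, RP4.wt δ f x * ((h x : ℝ) - h 0) := by
  unfold pairing
  rw [finsum_eq_sum_of_support_subset (s := s), Finset.mul_sum]
  · refine Finset.sum_congr rfl fun x _ => ?_
    unfold RP4.wt
    ring
  · intro x hx
    rw [Function.mem_support] at hx
    exact hs x (left_ne_zero_of_mul hx)

private lemma green_eq (f g : ℝ × ℝ → ℝ) : greenForm f g = RP4.energy2 f g := by
  unfold greenForm RP4.energy2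
  refine integral_congr_ae (Eventually.of_forall fun x => ?_)
  refine integral_congr_ae (Eventually.of_forall fun y => ?_)
  ring

private lemma tendsto_of_limit {F F' : Finset Vertex → ℝ} {a : ℝ}
    (h : Limit F a) (hF : ∀ D, EvenBoundary D → F D = F' D) : Tendsto F' RP4.dom (𝓝 a) := by
  rw [Metric.tendsto_nhds]
  intro ε hε
  obtain ⟨D₀, hD₀⟩ := h ε hε
  rw [RP4.eventually_dom]
  refine ⟨D₀, fun D hD hp => ?_⟩
  have hev := (bdryPar_iff D).1 hp
  rw [Real.dist_eq, ← hF D hev]
  exact hD₀ D hD hev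

private lemma cov_eq {m : ℕ} {K : ℝ} (hK : 0 ≤ K) (f : Fin m → ℝ × ℝ → ℝ) :
    covariance (Real.sqrt K) f = GF.gram K f := by
  ext i j
  unfold covariance GF.gram
  rw [Matrix.of_apply, Matrix.of_apply, Real.sq_sqrt hK, green_eq]
  rfl

/--
Square ice with zero boundary values on finite sets `D` with even boundary: there is `κ > 0` with
the following properties.

* The mean of `(h x - h y) ^ 2` has a limit `a x y` as `D` increases to the whole lattice, and
  `a x y / log |x - y|` tends to `κ² / π` as `|x - y|` tends to infinity.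
* For all smooth compactly supported test functions of integral zero and all continuous functions
  `φ` of polynomial growth, the mean of `φ` of the vector of the pairings converges, first as `D`
  increases to the whole lattice, then as the mesh `δ` tends to zero, to the integral of `φ` for
  the law of the pairings of `κ` times the Gaussian free field of the plane.
-/
theorem result : ∃ κ : ℝ, 0 < κ ∧
    (∃ a : Vertex → Vertex → ℝ,
      (∀ x y, Limit (fun D => Mean D fun h => ((h x : ℝ) - h y) ^ 2) (a x y)) ∧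
      ∀ ε > 0, ∃ R > 1, ∀ x y : Vertex, R ≤ length (x - y) →
        |a x y / Real.log (length (x - y)) - κ ^ 2 / Real.pi| ≤ ε) ∧
    (∀ (m : ℕ) (f : Fin m → ℝ × ℝ → ℝ),
      (∀ i, ContDiff ℝ (⊤ : ℕ∞) (f i) ∧ HasCompactSupport (f i) ∧ ∫ y, f i y = 0) →
      (covariance κ f).PosSemidef ∧
      ∀ φ : EuclideanSpace ℝ (Fin m) → ℝ, Continuous φ →
        (∃ (C : ℝ) (k : ℕ), ∀ v, |φ v| ≤ C * (1 + ‖v‖) ^ k) →
        Integrable φ (multivariateGaussian 0 (covariance κ f)) ∧
        ∃ c : ℝ → ℝ, (∀ δ > 0, Limit (fun D => Mean D fun h => φ (pairings δ f h)) (c δ)) ∧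
          Tendsto c (𝓝[>] 0) (𝓝 (∫ v, φ v ∂(multivariateGaussian 0 (covariance κ f))))) := by
  obtain ⟨K, a, hK, ha, hlog, hf, -⟩ := KP.core_pos
  have hsq : Real.sqrt K ^ 2 = K := Real.sq_sqrt hK.le
  have ha' : ∀ x y, Tendsto (fun D => RP4.avg (RP4.Om D) (fun h => ((h x : ℝ) - h y) ^ 2))
      RP4.dom (𝓝 (a x y)) := by
    intro x y
    refine (ha x y).congr fun D => ?_
    congr 1
    funext h
    push_cast
    ring
  refine ⟨Real.sqrt K, Real.sqrt_pos.2 hK, ⟨a, fun x y => ?_, fun ε hε => ?_⟩, ?_⟩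
  · exact limit_of_tendsto (ha' x y) fun D hD => mean_eq hD _
  · obtain ⟨R, hR, h⟩ := hlog ε hε
    refine ⟨R, hR, fun x y hxy => ?_⟩
    rw [hsq]
    exact h x y hxy
  · intro m f hf'
    have hne : ∀ j, GF.Ne (f j) := fun j => ⟨⟨(hf' j).1, (hf' j).2.1⟩, (hf' j).2.2⟩
    obtain ⟨h1, h2⟩ := GF.law_of_core ha hlog hf m f hne
    rw [cov_eq hK.le]
    refine ⟨h1, fun φ hφ hg => ?_⟩
    obtain ⟨h3, h4⟩ := h2 φ hφ hg
    refine ⟨h3, ?_⟩
    choose! c hc using fun (δ : ℝ) (hδ : 0 < δ) =>
      GF.fixed_mesh f (fun j => (hf' j).2.1) hδ φ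
    refine ⟨c, fun δ hδ => ?_, ?_⟩
    · -- the limit for a fixed mesh
      have hδ' : 0 < δ := hδ
      set S : Finset Vertex := Finset.univ.biUnion fun j : Fin m =>
        (finite_support (hf' j).2.1 hδ').toFinset with hS
      have hSf : ∀ (j : Fin m) (x : Vertex), f j (δ * x.1, δ * x.2) ≠ 0 → x ∈ S := by
        intro j x hx
        rw [hS, Finset.mem_biUnion]
        exact ⟨j, Finset.mem_univ j, by
          rw [Set.Finite.mem_toFinset]
          exact hx⟩
      have h5 : Tendsto (fun D => RP4.avg (RP4.Om D) (fun h => φ (pairings δ f h))) RP4.dom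
          (𝓝 (c δ)) := by
        refine (hc δ hδ').congr' ?_
        rw [Filter.EventuallyEq, RP4.eventually_dom]
        refine ⟨S, fun D hD _ => ?_⟩
        congr 1
        funext h
        unfold GF.YV pairings
        congr 2
        funext j
        rw [GF.YY_eq_sum (fun x hx => hSf j x hx) hD, pairing_eq (fun x hx => hSf j x hx)]
      exact limit_of_tendsto h5 fun D hD => mean_eq hD _
    · -- the limit of vanishing mesh
      rw [Metric.tendsto_nhds]
      intro ε hε
      have h5 := (Metric.tendsto_nhds.1 h4) (ε / 2) (half_pos hε)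
      rw [eventually_curry_iff] at h5
      filter_upwards [h5, self_mem_nhdsWithin] with δ h6 hδ
      have hdom := RP4.dom_neBot
      have h7 : dist (c δ) (∫ v, φ v ∂(multivariateGaussian 0 (GF.gram K f))) ≤ ε / 2 := by
        refine le_of_tendsto ((hc δ hδ).dist tendsto_const_nhds) ?_
        filter_upwards [h6] with D hD
        exact hD.le
      linarith

end Pool.Agent.Results.MP_973bc8_pr.WholePlaneGFF
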